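import Pool.Agent.SC25.FlipE2
import Pool.Agent.SC25.Det
import Pool.Agent.NL25.Rare
import Pool.Agent.HB45.Uni

set_option autoImplicit false

/-!
# LH48/Dec: the flip classes, `W(t) = ∑ 2^(-b) t^v (1 + t)^b`
-/

open Polynomial

namespace Pool.LH48

open Pool.HB45 Pool.HM63 Pool.PH43 Pool.SC25

/-- number of flips -/
noncomputable def bb {N m : ℕ} (hm : m * (3 + 2) ≤ N + 1) (Q : Rel (N + 1)) (lab : Fin (N + 1) → ℕ)
    (g : Equiv.Perm (Fin (N + 1))) : ℕ :=
  (upT Q lab (Tw hm) g).card + (dnT Q lab (Tw hm) g).card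

/-- smallest number of descents in the flip class -/
noncomputable def vv {N m : ℕ} (hm : m * (3 + 2) ≤ N + 1) (Q : Rel (N + 1)) (lab : Fin (N + 1) → ℕ)
    (g : Equiv.Perm (Fin (N + 1))) : ℕ :=
  des lab g - (dnT Q lab (Tw hm) g).card

theorem bb_le {N m : ℕ} (hm : m * (3 + 2) ≤ N + 1) (Q : Rel (N + 1)) (lab : Fin (N + 1) → ℕ)
    (g : Equiv.Perm (Fin (N + 1))) : bb hm Q lab g ≤ m := by
  classical
  unfold bb
  have hdis : Disjoint (upT Q lab (Tw hm) g) (dnT Q lab (Tw hm) g) := by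
    rw [Finset.disjoint_left]
    intro p hp hp'
    rw [mem_upT] at hp
    rw [mem_dnT] at hp'
    omega
  rw [← Finset.card_union_of_disjoint hdis]
  calc (upT Q lab (Tw hm) g ∪ dnT Q lab (Tw hm) g).card ≤ (Tw hm).card := by
        refine Finset.card_le_card (Finset.union_subset ?_ ?_)
        · intro p hp
          exact (mem_upT.1 hp).1
        · intro p hp
          exact (mem_dnT.1 hp).1
    _ ≤ (Finset.univ : Finset (Fin m)).card := Finset.card_image_le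
    _ = m := by simp

theorem vv_add {N m : ℕ} (hm : m * (3 + 2) ≤ N + 1) {Q : Rel (N + 1)} {lab : Fin (N + 1) → ℕ}
    (hn : Nat' Q lab) {g : Equiv.Perm (Fin (N + 1))} (hg : g ∈ LE Q) :
    vv hm Q lab g + (dnT Q lab (Tw hm) g).card = des lab g := by
  have h := det_down hm hn hg
  unfold vv
  omega

/-- (D2) -/
theorem eval_dec {N m : ℕ} (hm : m * (3 + 2) ≤ N + 1) {Q : Rel (N + 1)} {lab : Fin (N + 1) → ℕ}
    (hn : Nat' Q lab) (t : ℝ) (ht : 0 < t) :
    ∑ g ∈ LE Q, t ^ des lab g =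
      ∑ g ∈ LE Q, (1 / 2 : ℝ) ^ bb hm Q lab g * (t ^ vv hm Q lab g * (1 + t) ^ bb hm Q lab g) := by
  have h1 := all_pos (Q := Q) (lab := lab) (sep_Tw hm) t ((1 + t) / 2) ((1 + t) / (2 * t)) ht
  have hz : ((1 + t) / 2 + t * ((1 + t) / (2 * t))) / (1 + t) = 1 := by
    field_simp
    norm_num
  rw [hz] at h1
  simp only [one_pow, mul_one] at h1
  rw [← h1]
  refine Finset.sum_congr rfl fun g hg => ?_
  have h2 := vv_add hm hn hg
  rw [← h2, pow_add]
  unfold bb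
  have h3 : ((1 + t) / (2 * t)) ^ (dnT Q lab (Tw hm) g).card =
      ((1 + t) / 2) ^ (dnT Q lab (Tw hm) g).card * (t ^ (dnT Q lab (Tw hm) g).card)⁻¹ := by
    rw [← inv_pow, ← mul_pow]
    congr 1
    field_simp
  have h4 : t ^ (dnT Q lab (Tw hm) g).card * (t ^ (dnT Q lab (Tw hm) g).card)⁻¹ = 1 :=
    mul_inv_cancel₀ (pow_ne_zero _ ht.ne')
  have h5 : (1 / 2 : ℝ) ^ ((upT Q lab (Tw hm) g).card + (dnT Q lab (Tw hm) g).card) *
      (1 + t) ^ ((upT Q lab (Tw hm) g).card + (dnT Q lab (Tw hm) g).card) =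
      ((1 + t) / 2) ^ (upT Q lab (Tw hm) g).card * ((1 + t) / 2) ^ (dnT Q lab (Tw hm) g).card := by
    rw [← mul_pow, ← pow_add]
    congr 1
    ring
  calc t ^ vv hm Q lab g * t ^ (dnT Q lab (Tw hm) g).card *
        (((1 + t) / 2) ^ (upT Q lab (Tw hm) g).card *
          ((1 + t) / (2 * t)) ^ (dnT Q lab (Tw hm) g).card)
      = t ^ vv hm Q lab g * (((1 + t) / 2) ^ (upT Q lab (Tw hm) g).card *
          ((1 + t) / 2) ^ (dnT Q lab (Tw hm) g).card) *
          (t ^ (dnT Q lab (Tw hm) g).card * (t ^ (dnT Q lab (Tw hm) g).card)⁻¹) := by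
        rw [h3]
        ring
    _ = _ := by
        rw [h4, ← h5]
        ring

/-- the polynomial identity -/
theorem Wp_dec {N m : ℕ} (hm : m * (3 + 2) ≤ N + 1) {Q : Rel (N + 1)} {lab : Fin (N + 1) → ℕ}
    (hn : Nat' Q lab) :
    Wp Q lab = ∑ g ∈ LE Q, C ((1 / 2 : ℝ) ^ bb hm Q lab g) *
      (X ^ vv hm Q lab g * (1 + X) ^ bb hm Q lab g) := by
  refine Polynomial.eq_of_infinite_eval_eq _ _ (Set.Infinite.mono ?_ (Set.Ioi_infinite (0 : ℝ)))
  intro t ht
  rw [Set.mem_setOf_eq]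
  unfold Wp
  rw [eval_finsetSum, eval_finsetSum]
  have h1 := eval_dec hm hn t ht
  simpa using h1

/-- (D1) -/
theorem coeff_dec {N m : ℕ} (hm : m * (3 + 2) ≤ N + 1) {Q : Rel (N + 1)} {lab : Fin (N + 1) → ℕ}
    (hn : Nat' Q lab) (j : ℕ) :
    (w Q lab j : ℝ) = ∑ g ∈ LE Q, (1 / 2 : ℝ) ^ bb hm Q lab g *
      (if vv hm Q lab g ≤ j then ((bb hm Q lab g).choose (j - vv hm Q lab g) : ℝ) else 0) := by
  rw [← coeff_Wp, Wp_dec hm hn, finsetSum_coeff]
  refine Finset.sum_congr rfl fun g _ => ?_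
  rw [coeff_C_mul, coeff_X_pow_mul', coeff_one_add_X_pow]

open Classical in
/-- (D3) -/
theorem few_flips : ∃ c : ℝ, 0 < c ∧ ∃ N0 : ℕ, ∀ N ≥ N0, ∀ (h : ℕ)
    (hm : (N + 1) / 5 * (3 + 2) ≤ N + 1) (Q : Rel (N + 1)) (κ lab : Fin (N + 1) → ℕ), 1 ≤ h →
    (h : ℝ) ≤ c * N → Lev h Q κ → Nat' Q lab →
    (((LE Q).filter fun g => (bb hm Q lab g : ℝ) ≤ 1 / 1000 * N).card : ℝ) ≤
      Real.exp (-(1 / 1000 * N)) * (LE Q).card := by
  obtain ⟨c, hc, N1, hbad⟩ := NL25.bad_zero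
  refine ⟨c, hc, max N1 10000, fun N hN h hm Q κ lab hh hhN hκ hn => ?_⟩
  have g1 : N1 ≤ N := (le_max_left _ _).trans hN
  have g2 : 10000 ≤ N := (le_max_right _ _).trans hN
  have hN' : (10000 : ℝ) ≤ N := by exact_mod_cast g2
  obtain ⟨m, hmd⟩ : ∃ m, m = (N + 1) / 5 := ⟨_, rfl⟩
  obtain ⟨b, hb⟩ : ∃ b, b = N / 10 + 1 := ⟨_, rfl⟩
  have hb1 : (N : ℝ) / 10 ≤ b := by
    have h1 : N ≤ 10 * b := by omega
    have h2 : (N : ℝ) ≤ 10 * b := by exact_mod_cast h1
    linarith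
  have hc0 : (0 : ℝ) < (LE Q).card := NL25.card_pos hn
  have h1 := hbad N g1 h _ b hm Q κ lab hh hhN hκ hn hb1
  have h2 := all_win hm hn 1 (1 / 2) one_pos le_rfl (by norm_num) (by norm_num)
  simp only [one_pow, one_mul, mul_one] at h2
  set η : ℝ := 1 - (1 - 1 / 2) / 24 with hη
  have hη0 : 0 < η := by
    rw [hη]
    norm_num
  have hη1 : η ≤ 1 := by
    rw [hη]
    norm_num
  -- words with few bad windows
  have h3 : ∑ g ∈ LE Q, η ^ ((N + 1) / 5 - nbad hm Q g) ≤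
      (LE Q).card * η ^ ((N + 1) / 5 - b) +
        (((LE Q).filter fun g => b ≤ nbad hm Q g).card : ℝ) := by
    rw [← Finset.sum_filter_add_sum_filter_not (LE Q) (fun g => b ≤ nbad hm Q g), add_comm]
    refine add_le_add ?_ ?_
    · calc ∑ g ∈ (LE Q).filter (fun g => ¬ b ≤ nbad hm Q g), η ^ ((N + 1) / 5 - nbad hm Q g)
          ≤ ∑ _g ∈ (LE Q).filter (fun g => ¬ b ≤ nbad hm Q g), η ^ ((N + 1) / 5 - b) := by
            refine Finset.sum_le_sum fun g hg => ?_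
            have h4 := (Finset.mem_filter.1 hg).2
            exact pow_le_pow_of_le_one hη0.le hη1 (by omega)
        _ = (((LE Q).filter (fun g => ¬ b ≤ nbad hm Q g)).card : ℝ) * η ^ ((N + 1) / 5 - b) := by
            rw [Finset.sum_const, nsmul_eq_mul]
        _ ≤ (LE Q).card * η ^ ((N + 1) / 5 - b) := by
            refine mul_le_mul_of_nonneg_right ?_ (by positivity)
            exact_mod_cast Finset.card_filter_le _ _
    · calc ∑ g ∈ (LE Q).filter (fun g => b ≤ nbad hm Q g), η ^ ((N + 1) / 5 - nbad hm Q g)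
          ≤ ∑ _g ∈ (LE Q).filter (fun g => b ≤ nbad hm Q g), (1 : ℝ) :=
            Finset.sum_le_sum fun g _ => pow_le_one₀ hη0.le hη1
        _ = _ := by rw [Finset.sum_const, nsmul_eq_mul, mul_one]
  -- Markov
  obtain ⟨M, hM⟩ : ∃ M, M = N / 1000 := ⟨_, rfl⟩
  have h4 : (((LE Q).filter fun g => (bb hm Q lab g : ℝ) ≤ 1 / 1000 * N).card : ℝ) *
      (1 / 2) ^ M ≤ ∑ g ∈ LE Q,
        (1 / 2 : ℝ) ^ ((upT Q lab (Tw hm) g).card + (dnT Q lab (Tw hm) g).card) := by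
    calc _ = ∑ _g ∈ (LE Q).filter (fun g => (bb hm Q lab g : ℝ) ≤ 1 / 1000 * N), (1 / 2 : ℝ) ^ M := by
          rw [Finset.sum_const, nsmul_eq_mul]
      _ ≤ ∑ g ∈ (LE Q).filter (fun g => (bb hm Q lab g : ℝ) ≤ 1 / 1000 * N),
          (1 / 2 : ℝ) ^ ((upT Q lab (Tw hm) g).card + (dnT Q lab (Tw hm) g).card) := by
          refine Finset.sum_le_sum fun g hg => ?_
          have h5 := (Finset.mem_filter.1 hg).2
          refine pow_le_pow_of_le_one (by norm_num) (by norm_num) ?_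
          change bb hm Q lab g ≤ M
          rw [hM, Nat.le_div_iff_mul_le (by norm_num)]
          have h6 : (bb hm Q lab g : ℝ) * 1000 ≤ N := by linarith
          exact_mod_cast h6
      _ ≤ _ := Finset.sum_le_sum_of_subset_of_nonneg (Finset.filter_subset _ _)
          fun _ _ _ => by positivity
  have h5 := h4.trans (h2.trans (h3.trans (add_le_add_right h1 _)))
  -- numbers
  have hηe : η ≤ Real.exp (-(1 / 48)) := by
    have := Real.add_one_le_exp (-(1 / 48 : ℝ))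
    rw [hη]
    linarith
  have hmb : (N : ℝ) / 10 - 2 ≤ ((N + 1) / 5 - b : ℕ) := by
    have h6 : N ≤ 10 * ((N + 1) / 5 - b) + 20 := by omega
    have h7 : (N : ℝ) ≤ 10 * (((N + 1) / 5 - b : ℕ) : ℝ) + 20 := by exact_mod_cast h6
    linarith
  have h6 : η ^ ((N + 1) / 5 - b) ≤ Real.exp (-(1 / 48 * (N / 10 - 2))) := by
    calc η ^ ((N + 1) / 5 - b) ≤ Real.exp (-(1 / 48)) ^ ((N + 1) / 5 - b) :=
          pow_le_pow_left₀ hη0.le hηe _
      _ = Real.exp (-(1 / 48 * (((N + 1) / 5 - b : ℕ) : ℝ))) := by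
          rw [← Real.exp_nat_mul]
          congr 1
          ring
      _ ≤ _ := by
          rw [Real.exp_le_exp]
          linarith
  have h7 : Real.exp (-(7 / 10000 * N)) ≤ (1 / 2 : ℝ) ^ M := by
    have h8 : (M : ℝ) ≤ N / 1000 := by
      rw [hM]
      exact_mod_cast Nat.cast_div_le
    have h9 : (1 / 2 : ℝ) = Real.exp (-(Real.log 2)) := by
      rw [Real.exp_neg, Real.exp_log (by norm_num)]
      norm_num
    rw [h9, ← Real.exp_nat_mul, Real.exp_le_exp]
    have h10 := Real.log_two_lt_d9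
    have h11 := Real.log_two_gt_d9
    have h12 : (M : ℝ) * Real.log 2 ≤ N / 1000 * (7 / 10) :=
      mul_le_mul h8 (by linarith) (by linarith) (by positivity)
    linarith
  set S := (((LE Q).filter fun g => (bb hm Q lab g : ℝ) ≤ 1 / 1000 * N).card : ℝ) with hS
  have hS0 : 0 ≤ S := Nat.cast_nonneg _
  have h8 : S * Real.exp (-(7 / 10000 * N)) ≤
      (LE Q).card * Real.exp (-(1 / 48 * (N / 10 - 2))) + Real.exp (-(N / 200)) * (LE Q).card := by
    calc S * Real.exp (-(7 / 10000 * N)) ≤ S * (1 / 2) ^ M := mul_le_mul_of_nonneg_left h7 hS0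
      _ ≤ _ := h5
      _ ≤ _ := by
          have := mul_le_mul_of_nonneg_left h6 hc0.le
          linarith
  have h9 : Real.exp (-(1 / 48 * ((N : ℝ) / 10 - 2))) ≤ 1 / 2 * Real.exp (-(17 / 10000 * N)) := by
    have h10 : (1 / 2 : ℝ) = Real.exp (-(Real.log 2)) := by
      rw [Real.exp_neg, Real.exp_log (by norm_num)]
      norm_num
    rw [h10, ← Real.exp_add, Real.exp_le_exp]
    have h11 := Real.log_two_lt_d9
    linarith
  have h10 : Real.exp (-((N : ℝ) / 200)) ≤ 1 / 2 * Real.exp (-(17 / 10000 * N)) := by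
    have h10 : (1 / 2 : ℝ) = Real.exp (-(Real.log 2)) := by
      rw [Real.exp_neg, Real.exp_log (by norm_num)]
      norm_num
    rw [h10, ← Real.exp_add, Real.exp_le_exp]
    have h11 := Real.log_two_lt_d9
    linarith
  have h11 : S * Real.exp (-(7 / 10000 * N)) ≤ (LE Q).card * Real.exp (-(17 / 10000 * N)) := by
    have h12 := mul_le_mul_of_nonneg_left h9 hc0.le
    have h13 := mul_le_mul_of_nonneg_left h10 hc0.le
    linarith
  have h12 : Real.exp (-(17 / 10000 * (N : ℝ))) =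
      Real.exp (-(1 / 1000 * N)) * Real.exp (-(7 / 10000 * N)) := by
    rw [← Real.exp_add]
    congr 1
    ring
  rw [h12] at h11
  have h13 : S * Real.exp (-(7 / 10000 * N)) ≤
      (Real.exp (-(1 / 1000 * N)) * (LE Q).card) * Real.exp (-(7 / 10000 * N)) := by
    calc _ ≤ _ := h11
      _ = _ := by ring
  exact le_of_mul_le_mul_right h13 (Real.exp_pos _)

end Pool.LH48
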